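import Mathlib

/-!
# `d(S,R)` finite does not bound the relative Davenport constants

The semigroup is the product of the semilattice of finite sets of natural numbers (with union) and
the three-element monoid `{0, x, 2x}` with `3x = 2x`.
-/

set_option autoImplicit false

namespace Pool.Agent.Results.MP_6ad575_co.Unbounded

section Defs

variable {S : Type*} [AddCommMonoid S]

/-- The cyclic subsemigroup `⟨x⟩ = {m x : m ≥ 1}`. -/
def cyc (x : S) : Set S := {y | ∃ m : ℕ, 1 ≤ m ∧ y = m • x}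

variable (S) in
/-- `S` is periodic: every cyclic subsemigroup is finite. -/
def Periodic : Prop := ∀ x : S, (cyc x).Finite

/-- The cyclic subsemigroup `⟨a⟩` is a group. -/
def CycIsGroup (a : S) : Prop :=
  ∃ u ∈ cyc a, ∀ x ∈ cyc a, u + x = x ∧ ∃ y ∈ cyc a, x + y = u

/-- The lengths `ℓ` of the sequences `s_1, …, s_ℓ` over `S` for which the product of the elements
`X^{s_i} - a_i X^{e(s_i)}` of `R[X;S]` is nonzero for all nonzero `a_i`. Here `e i` is the
idempotent of `⟨s i⟩`. -/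
def GoodLengths (S : Type*) [AddCommMonoid S] (R : Type*) [CommRing R] : Set ℕ :=
  {l | ∃ s e : Fin l → S, (∀ i, e i ∈ cyc (s i) ∧ e i + e i = e i) ∧
    ∀ a : Fin l → R, (∀ i, a i ≠ 0) →
      ∏ i, (AddMonoidAlgebra.single (s i) (1 : R) - AddMonoidAlgebra.single (e i) (a i)) ≠ 0}

/-- `d(S,R)`. -/
noncomputable def d (S : Type*) [AddCommMonoid S] (R : Type*) [CommRing R] : ℕ∞ :=
  ⨆ l ∈ GoodLengths S R, (l : ℕ∞)

/-- `a ⪯ b`: `a = b` or `a = b + c` for some `c`. -/
def Pre (a b : S) : Prop := a = b ∨ ∃ c, a = b + c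

theorem Pre.trans {a b c : S} (h1 : Pre a b) (h2 : Pre b c) : Pre a c := by
  rcases h1 with rfl | ⟨x, rfl⟩
  · exact h2
  · rcases h2 with rfl | ⟨y, rfl⟩
    · exact Or.inr ⟨x, rfl⟩
    · exact Or.inr ⟨y + x, by rw [add_assoc]⟩

theorem Pre.add {a b c e : S} (h1 : Pre a b) (h2 : Pre c e) : Pre (a + c) (b + e) := by
  rcases h1 with rfl | ⟨x, rfl⟩ <;> rcases h2 with rfl | ⟨y, rfl⟩
  · exact Or.inl rfl
  · exact Or.inr ⟨y, by rw [add_assoc]⟩
  · exact Or.inr ⟨x, by rw [add_right_comm]⟩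
  · exact Or.inr ⟨x + y, by rw [add_add_add_comm]⟩

variable (S) in
/-- The congruence `ℋ`. -/
def hCon : AddCon S where
  r a b := Pre a b ∧ Pre b a
  iseqv := ⟨fun _ => ⟨Or.inl rfl, Or.inl rfl⟩, fun h => ⟨h.2, h.1⟩,
    fun h1 h2 => ⟨h1.1.trans h2.1, h2.2.trans h1.2⟩⟩
  add' h1 h2 := ⟨h1.1.add h2.1, h1.2.add h2.2⟩

/-- A sequence (multiset) over the commutative monoid `T` is irreducible if no proper subsequence
(the empty one included) has the same sum. -/
def Irred {T : Type*} [AddCommMonoid T] (s : Multiset T) : Prop := ∀ t, t < s → t.sum ≠ s.sum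

/-- `D_b(T)`: the supremum of the lengths of the irreducible sequences with sum `b`. -/
noncomputable def Dav (T : Type*) [AddCommMonoid T] (b : T) : ℕ∞ :=
  ⨆ s ∈ {s : Multiset T | Irred s ∧ s.sum = b}, (Multiset.card s : ℕ∞)

end Defs

/-! ### The example -/

/-- The monoid `{0, x, 2x}` with `3x = 2x`. -/
inductive N3
  | o
  | x
  | e
  deriving DecidableEq

instance : Fintype N3 := ⟨{.o, .x, .e}, by intro a; cases a <;> simp⟩

/-- Addition: `o` is neutral and every other sum is `e`. -/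
def N3.add : N3 → N3 → N3
  | .o, b => b
  | a, .o => a
  | _, _ => .e

/-- Pairs of a finite set of natural numbers and an element of `{0, x, 2x}`. -/
@[ext] structure Pt where
  A : Finset ℕ
  n : N3

instance : Add Pt := ⟨fun p q => ⟨p.A ∪ q.A, p.n.add q.n⟩⟩

instance : Zero Pt := ⟨⟨∅, .o⟩⟩

instance : AddCommMonoid Pt where
  add_assoc p q r := by
    apply Pt.ext
    · exact Finset.union_assoc _ _ _
    · change (p.n.add q.n).add r.n = p.n.add (q.n.add r.n)
      cases p.n <;> cases q.n <;> cases r.n <;> rfl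
  zero_add p := by
    apply Pt.ext
    · exact Finset.empty_union _
    · change N3.add .o p.n = p.n
      cases p.n <;> rfl
  add_zero p := by
    apply Pt.ext
    · exact Finset.union_empty _
    · change N3.add p.n .o = p.n
      cases p.n <;> rfl
  add_comm p q := by
    apply Pt.ext
    · exact Finset.union_comm _ _
    · change p.n.add q.n = q.n.add p.n
      cases p.n <;> cases q.n <;> rfl
  nsmul := nsmulRec

theorem add_A (p q : Pt) : (p + q).A = p.A ∪ q.A := rfl

theorem add_n (p q : Pt) : (p + q).n = p.n.add q.n := rfl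

theorem zero_A : (0 : Pt).A = ∅ := rfl

theorem zero_n : (0 : Pt).n = .o := rfl

theorem smul_A (p : Pt) (m : ℕ) : ((m + 1) • p).A = p.A := by
  induction m with
  | zero => rw [zero_add, one_smul]
  | succ m ih => rw [succ_nsmul, add_A, ih, Finset.union_self]

theorem smul_e (A : Finset ℕ) (m : ℕ) : ((m + 1) • (⟨A, .e⟩ : Pt)) = ⟨A, .e⟩ := by
  induction m with
  | zero => rw [zero_add, one_smul]
  | succ m ih => rw [succ_nsmul, ih]; apply Pt.ext <;> simp [add_A, add_n, N3.add]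

theorem smul_o (A : Finset ℕ) (m : ℕ) : ((m + 1) • (⟨A, .o⟩ : Pt)) = ⟨A, .o⟩ := by
  induction m with
  | zero => rw [zero_add, one_smul]
  | succ m ih => rw [succ_nsmul, ih]; apply Pt.ext <;> simp [add_A, add_n, N3.add]

theorem smul_x (A : Finset ℕ) (m : ℕ) : ((m + 2) • (⟨A, .x⟩ : Pt)) = ⟨A, .e⟩ := by
  induction m with
  | zero => rw [zero_add, two_nsmul]; apply Pt.ext <;> simp [add_A, add_n, N3.add]
  | succ m ih => rw [succ_nsmul, ih]; apply Pt.ext <;> simp [add_A, add_n, N3.add]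

theorem cyc_x (A : Finset ℕ) {y : Pt} : y ∈ cyc (⟨A, .x⟩ : Pt) ↔ y = ⟨A, .x⟩ ∨ y = ⟨A, .e⟩ := by
  constructor
  · rintro ⟨m, hm, rfl⟩
    rcases m with _ | _ | m
    · omega
    · left; rw [zero_add, one_smul]
    · right; exact smul_x A m
  · rintro (rfl | rfl)
    · exact ⟨1, le_rfl, (one_smul _ _).symm⟩
    · exact ⟨2, by omega, (smul_x A 0).symm⟩

theorem periodic : Periodic Pt := by
  intro p
  apply (Set.finite_range fun n : N3 => (⟨p.A, n⟩ : Pt)).subset
  rintro y ⟨m, hm, rfl⟩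
  obtain ⟨m, rfl⟩ := Nat.exists_eq_add_of_le' hm
  exact ⟨((m + 1) • p).n, by
    apply Pt.ext
    · exact (smul_A p m).symm
    · rfl⟩

theorem not_group (A : Finset ℕ) : ¬ CycIsGroup (⟨A, .x⟩ : Pt) := by
  rintro ⟨u, -, h⟩
  obtain ⟨h1, -⟩ := h ⟨A, .x⟩ ((cyc_x A).mpr (Or.inl rfl))
  obtain ⟨-, y, hy, h2⟩ := h ⟨A, .x⟩ ((cyc_x A).mpr (Or.inl rfl))
  have hn1 := congrArg Pt.n h1
  have hn2 := congrArg Pt.n h2
  have hyn : y.n = .x ∨ y.n = .e := by
    rcases (cyc_x A).mp hy with rfl | rfl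
    · exact Or.inl rfl
    · exact Or.inr rfl
  rw [add_n] at hn1 hn2
  rcases hyn with hyn | hyn <;> rw [hyn] at hn2 <;> rw [← hn2] at hn1 <;> simp [N3.add] at hn1

/-- The idempotent of `⟨s⟩` when `s` is not idempotent. -/
theorem idem_cases (s e : Pt) (h1 : e ∈ cyc s) (h2 : e + e = e) :
    s = e ∨ ∃ A, s = ⟨A, .x⟩ ∧ e = ⟨A, .e⟩ := by
  obtain ⟨A, n⟩ := s
  obtain ⟨m, hm, rfl⟩ := h1
  obtain ⟨m, rfl⟩ := Nat.exists_eq_add_of_le' hm
  cases n with
  | o => left; exact (smul_o A m).symm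
  | e => left; exact (smul_e A m).symm
  | x =>
    rcases m with _ | m
    · rw [zero_add, one_smul] at h2
      have := congrArg Pt.n h2
      simp [add_n, N3.add] at this
    · right; exact ⟨A, rfl, smul_x A m⟩

theorem d_le_one (R : Type*) [CommRing R] [Nontrivial R] : d Pt R ≤ 1 := by
  apply iSup₂_le
  rintro l ⟨s, e, he, h⟩
  by_contra hl
  have hl' : 1 < l := by
    by_contra hcon
    push Not at hcon
    exact hl (by exact_mod_cast hcon)
  apply h (fun _ => 1) (fun _ => one_ne_zero)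
  by_cases hid : ∃ i, s i = e i
  · obtain ⟨i, hi⟩ := hid
    apply Finset.prod_eq_zero (Finset.mem_univ i)
    rw [hi, sub_self]
  · push Not at hid
    have h0 := idem_cases _ _ (he ⟨0, by omega⟩).1 (he ⟨0, by omega⟩).2
    have h1 := idem_cases _ _ (he ⟨1, hl'⟩).1 (he ⟨1, hl'⟩).2
    obtain ⟨A, hsA, heA⟩ := h0.resolve_left (hid _)
    obtain ⟨B, hsB, heB⟩ := h1.resolve_left (hid _)
    have hne : (⟨1, hl'⟩ : Fin l) ≠ ⟨0, by omega⟩ := by simp [Fin.ext_iff]
    rw [← Finset.mul_prod_erase _ _ (Finset.mem_univ (⟨0, by omega⟩ : Fin l)),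
      ← Finset.mul_prod_erase _ _ (Finset.mem_erase.mpr ⟨hne, Finset.mem_univ _⟩), ← mul_assoc,
      hsA, heA, hsB, heB]
    have key : (AddMonoidAlgebra.single (⟨A, .x⟩ : Pt) (1 : R) -
          AddMonoidAlgebra.single (⟨A, .e⟩ : Pt) (1 : R)) *
        (AddMonoidAlgebra.single (⟨B, .x⟩ : Pt) (1 : R) -
          AddMonoidAlgebra.single (⟨B, .e⟩ : Pt) (1 : R)) = 0 := by
      rw [sub_mul, mul_sub, mul_sub]
      simp only [AddMonoidAlgebra.single_mul_single, mul_one]
      have e1 : (⟨A, .x⟩ : Pt) + ⟨B, .x⟩ = ⟨A ∪ B, .e⟩ := rfl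
      have e2 : (⟨A, .x⟩ : Pt) + ⟨B, .e⟩ = ⟨A ∪ B, .e⟩ := rfl
      have e3 : (⟨A, .e⟩ : Pt) + ⟨B, .x⟩ = ⟨A ∪ B, .e⟩ := rfl
      have e4 : (⟨A, .e⟩ : Pt) + ⟨B, .e⟩ = ⟨A ∪ B, .e⟩ := rfl
      rw [e1, e2, e3, e4, sub_self]
    rw [key, zero_mul]

/-! ### Irreducible sequences -/

theorem pre_A {a b : Pt} (h : Pre a b) : b.A ⊆ a.A := by
  rcases h with rfl | ⟨c, rfl⟩
  · exact subset_rfl
  · rw [add_A]; exact Finset.subset_union_left

theorem pre_n {a b : Pt} (h : Pre a b) : a.n = b.n ∨ b.n = .o ∨ (b.n = .x ∧ a.n = .e) := by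
  rcases h with rfl | ⟨c, rfl⟩
  · exact Or.inl rfl
  · rw [add_n]
    cases b.n <;> cases c.n <;> simp [N3.add]

theorem hCon_eq {a b : Pt} (h : hCon Pt a b) : a = b := by
  obtain ⟨h1, h2⟩ : Pre a b ∧ Pre b a := h
  apply Pt.ext
  · exact (pre_A h2).antisymm (pre_A h1)
  · have k1 := pre_n h1
    have k2 := pre_n h2
    revert k1 k2
    cases a.n <;> cases b.n <;> simp

theorem mem_sum_A {s : Multiset Pt} {i : ℕ} : i ∈ s.sum.A ↔ ∃ p ∈ s, i ∈ p.A := by
  induction s using Multiset.induction with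
  | empty => simp [zero_A]
  | cons p s ih => rw [Multiset.sum_cons, add_A, Finset.mem_union, ih]; simp

theorem sum_n_o {s : Multiset Pt} (h : ∀ p ∈ s, p.n = .o) : s.sum.n = .o := by
  induction s using Multiset.induction with
  | empty => simp [zero_n]
  | cons p s ih =>
    rw [Multiset.sum_cons, add_n, h p (Multiset.mem_cons_self p s),
      ih fun q hq => h q (Multiset.mem_cons_of_mem hq)]
    rfl

/-- The sequence `({0}, 0), …, ({m - 1}, 0), (∅, x)`. -/
def seq (m : ℕ) : Multiset Pt := ⟨∅, .x⟩ ::ₘ (Multiset.range m).map fun i => ⟨{i}, .o⟩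

theorem seq_card (m : ℕ) : Multiset.card (seq m) = m + 1 := by simp [seq]

theorem seq_sum (m : ℕ) : (seq m).sum = ⟨Finset.range m, .x⟩ := by
  apply Pt.ext
  · ext i
    rw [mem_sum_A]
    simp [seq]
  · rw [seq, Multiset.sum_cons, add_n, sum_n_o]
    · rfl
    · intro p hp
      obtain ⟨i, -, rfl⟩ := Multiset.mem_map.mp hp
      rfl

theorem seq_nodup (m : ℕ) : (seq m).Nodup := by
  rw [seq, Multiset.nodup_cons]
  constructor
  · intro h
    obtain ⟨i, -, hi⟩ := Multiset.mem_map.mp h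
    have := congrArg Pt.n hi
    simp at this
  · apply (Multiset.nodup_range m).map
    intro i j hij
    have := congrArg Pt.A hij
    simpa using this

theorem seq_irred (m : ℕ) : Irred (seq m) := by
  intro t ht heq
  obtain ⟨a, ha⟩ := Multiset.lt_iff_cons_le.mp ht
  have hnd : (a ::ₘ t).Nodup := Multiset.nodup_of_le ha (seq_nodup m)
  rw [Multiset.nodup_cons] at hnd
  have hmem : ∀ p ∈ t, p ∈ seq m ∧ p ≠ a := fun p hp =>
    ⟨Multiset.mem_of_le ha (Multiset.mem_cons_of_mem hp), fun h => hnd.1 (h ▸ hp)⟩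
  have haS : a ∈ seq m := Multiset.mem_of_le ha (Multiset.mem_cons_self a t)
  rw [seq_sum] at heq
  rw [seq, Multiset.mem_cons] at haS
  rcases haS with rfl | haS
  · have : t.sum.n = .o := by
      apply sum_n_o
      intro p hp
      obtain ⟨h1, h2⟩ := hmem p hp
      rw [seq, Multiset.mem_cons] at h1
      obtain ⟨i, -, rfl⟩ := Multiset.mem_map.mp (h1.resolve_left h2)
      rfl
    rw [heq] at this
    simp at this
  · obtain ⟨i, hi, rfl⟩ := Multiset.mem_map.mp haS
    have : i ∈ t.sum.A := by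
      rw [heq]
      exact Finset.mem_range.mpr (Multiset.mem_range.mp hi)
    obtain ⟨p, hp, hip⟩ := mem_sum_A.mp this
    obtain ⟨h1, h2⟩ := hmem p hp
    rw [seq, Multiset.mem_cons] at h1
    rcases h1 with rfl | h1
    · simp at hip
    · obtain ⟨j, -, rfl⟩ := Multiset.mem_map.mp h1
      have : i = j := by simpa using hip
      exact h2 (by rw [this])

/-- Irreducibility passes to the quotient by `ℋ`, which is trivial here. -/
theorem irred_map {s : Multiset Pt} (hs : Irred s) :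
    Irred (s.map (hCon Pt).mk') := by
  intro t ht heq
  have hle : t ≤ s.map (hCon Pt).mk' := ht.le
  obtain ⟨t', ht', rfl⟩ : ∃ t' ≤ s, t'.map (hCon Pt).mk' = t := by
    revert hle
    induction s using Quotient.inductionOn
    induction t using Quotient.inductionOn
    rename_i l1 l2
    intro hle
    obtain ⟨l, hl1, hl2⟩ := (hle : l2.Subperm (l1.map _))
    obtain ⟨l', hl', rfl⟩ := List.sublist_map_iff.mp hl2
    exact ⟨(l' : Multiset Pt), hl'.subperm, Quotient.sound hl1⟩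
  have hlt : t' < s := lt_of_le_of_ne ht' (fun h => ht.ne (by rw [h]))
  apply hs t' hlt
  apply hCon_eq
  rw [← AddCon.eq]
  have h1 : ∀ u : Multiset Pt, (u.map (hCon Pt).mk').sum =
      ((u.sum : Pt) : (hCon Pt).Quotient) := by
    intro u
    exact (map_multiset_sum (hCon Pt).mk' u).symm
  rw [← h1, ← h1]
  exact heq

theorem sup_eq_top :
    (⨆ a ∈ {a : Pt | ¬ CycIsGroup a}, Dav (hCon Pt).Quotient (a : (hCon Pt).Quotient)) = ⊤ := by
  rw [ENat.eq_top_iff_forall_ge]
  intro m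
  refine le_trans ?_ (le_iSup₂ (f := fun (a : Pt) (_ : a ∈ {a : Pt | ¬ CycIsGroup a}) =>
    Dav (hCon Pt).Quotient (a : (hCon Pt).Quotient)) ⟨Finset.range m, .x⟩ (not_group _))
  refine le_trans ?_ (le_iSup₂ (f := fun (s : Multiset (hCon Pt).Quotient)
    (_ : s ∈ {s : Multiset (hCon Pt).Quotient | Irred s ∧
      s.sum = ((⟨Finset.range m, .x⟩ : Pt) : (hCon Pt).Quotient)}) =>
      (Multiset.card s : ℕ∞)) ((seq m).map (hCon Pt).mk')
      ⟨irred_map (seq_irred m), ?_⟩)
  · rw [Multiset.card_map, seq_card]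
    exact_mod_cast Nat.le_succ m
  · rw [← seq_sum]
    exact (map_multiset_sum (hCon Pt).mk' (seq m)).symm

/-- **Q1 is false.** There is a commutative periodic semigroup `S` (with a neutral element) such
that `d(S,R) ≤ 1` for every nonzero commutative ring `R`, while the numbers `D_ā(S/ℋ)`, over the
elements `a` for which `⟨a⟩` is not a group, are unbounded. -/
theorem result.{u} : ∃ (S : Type) (_ : AddCommMonoid S), Periodic S ∧
    (∀ (R : Type u) [CommRing R] [Nontrivial R], d S R ≤ 1) ∧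
    (⨆ a ∈ {a : S | ¬ CycIsGroup a}, Dav (hCon S).Quotient (a : (hCon S).Quotient)) = ⊤ :=
  ⟨Pt, inferInstance, periodic, fun R _ _ => d_le_one R, sup_eq_top⟩

end Pool.Agent.Results.MP_6ad575_co.Unbounded
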